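import Mathlib

open Filter Topology

namespace Pool.Agent.Results.MP_22eee4_an.Cex

/-- The greedy integer sequence `χ` (indices from 1). -/
def IsChi (χ : ℕ → ℤ) : Prop :=
  χ 1 = 1 ∧ ∀ i, 1 < i →
    IsGreatest {v | ∃ j : ℕ, 1 ≤ j ∧ j ≤ i - 1 ∧ v = ((j : ℤ) + 1) * ((i : ℤ) - χ j)} (χ i)

/-- The `χ` inequality for a real sequence (indices from 1). -/
def ChiIneq (a : ℕ → ℝ) : Prop :=
  ∀ i j : ℕ, 1 ≤ i → 1 ≤ j → ((j : ℝ) + 1) * i ≤ ((j : ℝ) + 1) * a j + a i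

lemma low {χ : ℕ → ℤ} (h : IsChi χ) {i j : ℕ} (hj : 1 ≤ j) (hij : j < i) :
    ((j : ℤ) + 1) * ((i : ℤ) - χ j) ≤ χ i :=
  (h.2 i (by omega)).2 ⟨j, hj, by omega, rfl⟩

lemma ge_self {χ : ℕ → ℤ} (h : IsChi χ) {i : ℕ} (hi : 1 ≤ i) : (i : ℤ) ≤ χ i := by
  rcases hi.eq_or_lt with rfl | hi
  · simp [h.1]
  · have := low h le_rfl hi
    rw [h.1] at this
    push_cast at this
    omega

lemma le_sq {χ : ℕ → ℤ} (h : IsChi χ) {i : ℕ} (hi : 1 ≤ i) : χ i ≤ (i : ℤ) ^ 2 := by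
  rcases hi.eq_or_lt with rfl | hi
  · simp [h.1]
  · obtain ⟨j, hj, hji, e⟩ := (h.2 i hi).1
    have h1 := ge_self h hj
    have h2 : (j : ℤ) + 1 ≤ i := by omega
    have h3 : (0 : ℤ) ≤ j := by omega
    rw [e]; nlinarith

lemma vals {χ : ℕ → ℤ} (h : IsChi χ) : χ 2 = 2 ∧ χ 3 = 4 ∧ χ 4 = 6 := by
  have h1 := h.1
  have h2 : χ 2 = 2 := by
    obtain ⟨j, hj, hji, e⟩ := (h.2 2 (by norm_num)).1
    obtain rfl : j = 1 := by omega
    rw [e, h1]; norm_num
  have h3 : χ 3 = 4 := by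
    have := low h (i := 3) (j := 1) le_rfl (by norm_num)
    obtain ⟨j, hj, hji, e⟩ := (h.2 3 (by norm_num)).1
    obtain rfl | rfl : j = 1 ∨ j = 2 := by omega
    all_goals (simp only [h1, h2] at e this; push_cast at e this; omega)
  refine ⟨h2, h3, ?_⟩
  have := low h (i := 4) (j := 1) le_rfl (by norm_num)
  obtain ⟨j, hj, hji, e⟩ := (h.2 4 (by norm_num)).1
  obtain rfl | rfl | rfl : j = 1 ∨ j = 2 ∨ j = 3 := by omega
  all_goals (simp only [h1, h2, h3] at e this; push_cast at e this; omega)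

lemma cube {χ : ℕ → ℤ} (h : IsChi χ) {i : ℕ} (hi : 2 ≤ i) : (i : ℤ) ^ 3 ≤ 16 * χ i ^ 2 := by
  set j := Nat.sqrt (i / 2) with hj
  have h1 : j * j ≤ i / 2 := Nat.sqrt_le _
  have h2 : i / 2 < (j + 1) * (j + 1) := Nat.lt_succ_sqrt _
  have hj1 : 1 ≤ j := by rw [hj, Nat.le_sqrt]; omega
  have h3 : j ≤ j * j := Nat.le_mul_self j
  have h4 := low h hj1 (show j < i by omega)
  have h5 := le_sq h hj1
  have h6 : 2 * ((j : ℤ) * j) ≤ i := by exact_mod_cast (show 2 * (j * j) ≤ i by omega)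
  have h7 : (i : ℤ) ≤ 2 * (((j : ℤ) + 1) * (j + 1)) := by
    exact_mod_cast (show i ≤ 2 * ((j + 1) * (j + 1)) by omega)
  have h8 : ((j : ℤ) + 1) * i ≤ 2 * χ i := by nlinarith [Int.natCast_nonneg j]
  have h9 : (0 : ℤ) ≤ ((j : ℤ) + 1) * i := by positivity
  have h10 : (((j : ℤ) + 1) * i) ^ 2 ≤ (2 * χ i) ^ 2 := pow_le_pow_left₀ h9 h8 2
  nlinarith [sq_nonneg (i : ℤ), sq_nonneg (χ i)]

lemma summ {χ : ℕ → ℤ} (h : IsChi χ) : Summable fun k : ℕ => 1 / (χ (k + 1) : ℝ) := by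
  rw [← summable_nat_add_iff 1]
  have hs : Summable fun k : ℕ => 4 * (1 / ((k + 2 : ℕ) : ℝ) ^ (3 / 2 : ℝ)) :=
    ((summable_nat_add_iff 2).2 (Real.summable_one_div_nat_rpow.2 (by norm_num))).mul_left 4
  refine Summable.of_nonneg_of_le (fun k => ?_) (fun k => ?_) hs
  · have : (0 : ℝ) ≤ χ (k + 1 + 1) := by
      exact_mod_cast (Int.natCast_nonneg _).trans (ge_self h (by omega))
    positivity
  · have h0 : (0 : ℝ) < χ (k + 2) := by
      have := ge_self h (show 1 ≤ k + 2 by omega)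
      exact_mod_cast (show (0 : ℤ) < χ (k + 2) by omega)
    have h1 : (((k + 2 : ℕ) : ℝ)) ^ 3 ≤ 16 * (χ (k + 2) : ℝ) ^ 2 := by
      exact_mod_cast cube h (show 2 ≤ k + 2 by omega)
    have hp : (0 : ℝ) < ((k + 2 : ℕ) : ℝ) := by positivity
    have h2 : ((k + 2 : ℕ) : ℝ) ^ (3 / 2 : ℝ) ≤ 4 * χ (k + 2) := by
      refine (pow_le_pow_iff_left₀ (by positivity) (by positivity) two_ne_zero).1 ?_
      rw [← Real.rpow_natCast, ← Real.rpow_mul hp.le]
      norm_num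
      push_cast at h1
      have h3 : ((k : ℝ) + 2) ^ (3 : ℝ) = ((k : ℝ) + 2) ^ 3 := by
        exact_mod_cast Real.rpow_natCast ((k : ℝ) + 2) 3
      nlinarith
    rw [mul_one_div, div_le_div_iff₀ h0 (Real.rpow_pos_of_pos hp _)]
    linarith

/-- A real sequence satisfying the `χ` inequality whose reciprocal sum exceeds that of `χ`. -/
theorem result (χ : ℕ → ℤ) (h : IsChi χ) :
    ∃ a : ℕ → ℝ, ChiIneq a ∧ (Summable fun k : ℕ => 1 / a (k + 1)) ∧
      (Summable fun k : ℕ => 1 / (χ (k + 1) : ℝ)) ∧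
      ∑' k : ℕ, 1 / (χ (k + 1) : ℝ) < ∑' k : ℕ, 1 / a (k + 1) := by
  obtain ⟨h2, h3, h4⟩ := vals h
  have h1 := h.1
  let a : ℕ → ℝ := fun i => if i = 1 then 3 / 4 else if i ≤ 4 then χ i + 1 / 2 else χ i
  have ha : ∀ i, 2 ≤ i → (χ i : ℝ) ≤ a i := by
    intro i hi
    simp only [a, if_neg (show i ≠ 1 by omega)]
    split_ifs <;> linarith
  have htail : (fun k : ℕ => 1 / a (k + 4 + 1)) = fun k : ℕ => 1 / (χ (k + 4 + 1) : ℝ) := by
    funext k
    simp only [a, if_neg (show k + 4 + 1 ≠ 1 by omega), if_neg (show ¬ k + 4 + 1 ≤ 4 by omega)]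
  have hs := summ h
  have hs' : Summable fun k : ℕ => 1 / a (k + 1) := by
    rw [← summable_nat_add_iff 4, htail]
    exact (summable_nat_add_iff 4).2 hs
  refine ⟨a, fun i j hi hj => ?_, hs', hs, ?_⟩
  · have hjr : (0 : ℝ) ≤ j := Nat.cast_nonneg j
    rcases hj.eq_or_lt with rfl | hj
    · rcases le_or_gt i 4 with h5 | h5
      · interval_cases i <;> simp [a, h2, h3, h4] <;> norm_num
      · have h6 := low h (i := i) (j := 2) (by norm_num) (by omega)
        rw [h2] at h6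
        have h7 : (2 : ℝ) * i - 1 ≤ χ i := by
          exact_mod_cast (show (2 : ℤ) * i - 1 ≤ χ i by push_cast at h6; omega)
        have h8 := ha i (by omega)
        have h9 : a 1 = 3 / 4 := by simp [a]
        rw [h9]; push_cast; linarith
    · have hj' : (j : ℝ) ≤ χ j := by exact_mod_cast ge_self h hj.le
      have hja := ha j hj
      rcases le_or_gt i j with hij | hij
      · have hij' : (i : ℝ) ≤ j := by exact_mod_cast hij
        have hai : 0 ≤ a i := by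
          rcases hi.eq_or_lt with rfl | hi
          · simp [a]; norm_num
          · have : (i : ℝ) ≤ χ i := by exact_mod_cast ge_self h hi.le
            linarith [ha i hi, Nat.cast_nonneg (α := ℝ) i]
        nlinarith
      · have h6 : ((j : ℝ) + 1) * ((i : ℝ) - χ j) ≤ χ i := by exact_mod_cast low h hj.le hij
        have h7 := ha i (by omega)
        nlinarith
  · rw [← hs.sum_add_tsum_nat_add 4, ← hs'.sum_add_tsum_nat_add 4, htail]
    simp [Finset.sum_range_succ, a, h1, h2, h3, h4]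
    norm_num

end Pool.Agent.Results.MP_22eee4_an.Cex
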